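import Pool.Agent.H.MP_751e6a_co.A

namespace Pool.Agent.Results.MP_751e6a_co.Counter

open Pointwise

/-- Integer points of the `N`-th dilate of `K`. -/
def lat {n : ℕ} (K : Set (Fin n → ℝ)) (N : ℕ) : Set (Fin n → ℤ) :=
  {z | (fun i => (z i : ℝ)) ∈ (N : ℝ) • K}

/-- Normality. -/
def Normal {n : ℕ} (P : Set (Fin n → ℝ)) : Prop :=
  ∀ N, 2 ≤ N → ∀ z ∈ lat P N, ∃ f : Fin N → Fin n → ℤ, (∀ k, f k ∈ lat P 1) ∧ z = ∑ k, f k

/-- `r` is the reduced degree of the point `a` of the `N`-th dilate of the interior. -/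
def IsRed {n : ℕ} (P : Set (Fin n → ℝ)) (N : ℕ) (a : Fin n → ℤ) (r : ℕ) : Prop :=
  IsLeast {s | 1 ≤ s ∧ s ≤ N ∧ ∃ b ∈ lat (interior P) s, ∃ c ∈ lat P (N - s), a = b + c} r

/-- The set of attained reduced degrees. -/
def Degs {n : ℕ} (P : Set (Fin n → ℝ)) : Set ℕ :=
  {r | ∃ N, 1 ≤ N ∧ ∃ a ∈ lat (interior P) N, IsRed P N a r}

open Pool.Agent.H.MP_751e6a_co

theorem result : ∃ (n : ℕ) (S : Finset (Fin n → ℤ)) (P : Set (Fin n → ℝ)),
    P = convexHull ℝ ((fun z i => (z i : ℝ)) '' (S : Set (Fin n → ℤ))) ∧ Normal P ∧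
    (lat (interior P) 1).Nonempty ∧ IsGreatest (Degs P) 3 ∧ 2 ∉ Degs P := by
  have hP : ∀ N z, z ∈ lat P N ↔ (∀ i, 0 ≤ z i) ∧ W z ≤ 140 * N := lat_P
  have hI : ∀ N, 1 ≤ N → ∀ z, z ∈ lat (interior P) N ↔ (∀ i, 0 < z i) ∧ W z < 140 * N := lat_int
  have two : ∀ z : Fin 5 → ℤ, (∀ i, 0 < z i) → W z ≠ 279 := by
    intro z hz
    have a0 := hz 0
    have a1 := hz 1
    have a2 := hz 2
    have a3 := hz 3
    have a4 := hz 4
    unfold W
    intro h
    have : z 0 + z 1 = 5 ∨ z 0 + z 1 = 1 := by omega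
    omega
  have W1 : W 1 = 138 := by simp [W]
  refine ⟨5, Finset.univ.image vt, P, ?_, ?_, ⟨1, (hI 1 le_rfl 1).2 ⟨by simp, by simp [W]⟩⟩,
    ⟨⟨3, by norm_num, ![4, 1, 3, 7, 1], ?_, ?_, ?_⟩, ?_⟩, ?_⟩
  · rw [Finset.coe_image, Finset.coe_univ, Set.image_univ, ← Set.range_comp]
    rfl
  · intro N hN z hz
    obtain ⟨M, rfl⟩ : ∃ M, N = M + 1 := ⟨N - 1, by omega⟩
    rw [hP] at hz
    obtain ⟨f, h1, h2⟩ := normal M z hz.1 (by exact_mod_cast hz.2)
    exact ⟨f, fun k => (hP 1 _).2 (by simpa using h1 k), h2⟩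
  · exact (hI 3 (by norm_num) _).2 (by decide)
  · exact ⟨by norm_num, le_rfl, _, (hI 3 (by norm_num) ![4, 1, 3, 7, 1]).2 (by decide), 0,
      (hP _ _).2 (by decide), by simp⟩
  · rintro s ⟨h1, h2, b, hb, c, hc, e⟩
    by_contra h3
    rw [hI s h1] at hb
    rw [hP] at hc
    have e1 : W b + W c = 419 := by rw [← W_add, ← e]; decide
    have := two b hb.1
    rcases (show s = 1 ∨ s = 2 by omega) with rfl | rfl
    · have a0 := hb.1 0
      have a1 := hb.1 1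
      have a2 := hb.1 2
      have a3 := hb.1 3
      have a4 := hb.1 4
      have a5 := hb.2
      have a6 := hc.2
      have : W b ≠ 139 := by unfold W; omega
      omega
    · omega
  · rintro r ⟨N, hN, a, ha, h1, h2⟩
    by_cases h3 : N ≤ 3
    · exact h1.2.1.trans h3
    · obtain ⟨k, rfl⟩ : ∃ k, N = k + 3 := ⟨N - 3, by omega⟩
      rw [hI _ hN] at ha
      obtain ⟨p, p1, p2, p3, p4⟩ := three k (a - 1) (fun i => by
        have := ha.1 i; simp only [Pi.sub_apply, Pi.one_apply]; omega) (by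
        have := ha.2; rw [W_sub, W1]; push_cast at this; omega)
      refine h2 ⟨by norm_num, by omega, a - p, (hI 3 (by norm_num) _).2 ⟨fun i => ?_, ?_⟩, p,
        (hP _ _).2 ⟨p1, by simpa using p3⟩, by simp⟩
      · have := p2 i
        simp only [Pi.sub_apply, Pi.one_apply] at this ⊢
        omega
      · simp only [W_sub, W1] at p4 ⊢
        omega
  · rintro ⟨N, hN, a, ha, ⟨-, h1, b, hb, c, hc, e⟩, h2⟩
    rw [hI 2 (by norm_num)] at hb
    rw [hP] at hc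
    have := two b hb.1
    have h3 : 2 ≤ 1 := by
      refine h2 ⟨le_rfl, hN, 1, (hI 1 le_rfl 1).2 ⟨by simp, by simp [W]⟩, a - 1,
        (hP _ _).2 ⟨fun i => ?_, ?_⟩, by simp⟩
      · have := hb.1 i
        have := hc.1 i
        simp only [e, Pi.sub_apply, Pi.add_apply, Pi.one_apply]
        omega
      · have a1 := hb.2
        have a2 := hc.2
        rw [W_sub, e, W_add, W1]
        omega
    omega

end Pool.Agent.Results.MP_751e6a_co.Counter
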